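import Mathlib

/-!
# Complete multipartite graphs without a large part are not graceful

If `K_{n_1,…,n_k}` is graceful, then `(3π + 2) ∑ n_i² ≥ 2 (∑ n_i)² + 3π + 2`. So a graceful complete
multipartite graph on `N` vertices has a part with more than `0.175 N` vertices, and the graph with
`k ≥ 6` parts of the same size `m` is not graceful, for any `m ≥ 1`.
-/

set_option autoImplicit false

namespace Pool.Agent.Results.MP_7fd98a_co.BalancedMultipartite

open Finset

/-- A graph with finitely many edges is graceful if there is an injective map `f` from its vertices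
to `{0, …, q}`, where `q` is the number of edges, such that the values `|f u - f v|` of the edges
`u v` are pairwise distinct. -/
def IsGraceful {V : Type} (G : SimpleGraph V) : Prop :=
  ∃ f : V → ℕ, Function.Injective f ∧ (∀ v, f v ≤ G.edgeSet.ncard) ∧
    ∀ u v x y, G.Adj u v → G.Adj x y → |(f u : ℤ) - f v| = |(f x : ℤ) - f y| → s(u, v) = s(x, y)

/-- The complete multipartite graph with parts `Fin (n i)`. -/
def K {k : ℕ} (n : Fin k → ℕ) : SimpleGraph (Σ i, Fin (n i)) where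
  Adj u v := u.1 ≠ v.1
  symm := ⟨fun _ _ h => h.symm⟩
  loopless := ⟨fun _ h => h rfl⟩

lemma dirichlet (t : ℝ) (q : ℕ) :
    2 * Real.sin (t / 2) * ∑ d ∈ Icc 1 q, Real.cos (t * d) =
      Real.sin ((q + 1 / 2) * t) - Real.sin (t / 2) := by
  induction q with
  | zero => simp; ring_nf
  | succ q ih =>
    rw [Finset.sum_Icc_succ_top (by omega), mul_add, ih]
    have h1 : ((q + 1 : ℕ) + 1 / 2 : ℝ) * t = t * ((q + 1 : ℕ) : ℝ) + t / 2 := by push_cast; ring
    have h2 : ((q : ℝ) + 1 / 2) * t = t * ((q + 1 : ℕ) : ℝ) - t / 2 := by push_cast; ring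
    rw [h1, h2, Real.sin_add, Real.sin_sub]
    ring

/-- The bound of Rédei and Rényi for difference bases, for graceful labelings of any graph. -/
lemma graceful_bound {V : Type} [Fintype V] (G : SimpleGraph V) (hG : IsGraceful G)
    (hq : 0 < G.edgeSet.ncard) :
    3 * Real.pi + 2 * (2 * (G.edgeSet.ncard : ℝ) + 1) ≤
      3 * Real.pi * ((Fintype.card V : ℝ) ^ 2 - 2 * G.edgeSet.ncard) := by
  classical
  obtain ⟨f, hf, hfq, hd⟩ := hG
  set q := G.edgeSet.ncard with hqdef
  have hcard : 2 * q = #{p : V × V | G.Adj p.1 p.2} := by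
    have h := G.two_mul_card_edgeFinset
    rw [hqdef, ← SimpleGraph.coe_edgeFinset, Set.ncard_coe_finset, h]
  set A : Finset (V × V) := {p : V × V | G.Adj p.1 p.2} with hA
  set P : Finset (V × V) := A.filter (fun p => f p.2 < f p.1) with hP
  set P' : Finset (V × V) := A.filter (fun p => ¬ f p.2 < f p.1) with hP'
  have hPP' : P' = P.map ⟨Prod.swap, Prod.swap_injective⟩ := by
    ext ⟨u, v⟩
    simp only [hP', hP, hA, mem_filter, mem_univ, true_and, mem_map, Function.Embedding.coeFn_mk,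
      Prod.exists, Prod.swap_prod_mk, Prod.mk.injEq]
    constructor
    · rintro ⟨h1, h2⟩
      refine ⟨v, u, ⟨h1.symm, ?_⟩, rfl, rfl⟩
      rcases lt_trichotomy (f u) (f v) with h | h | h
      · exact h
      · exact absurd (hf h) h1.ne
      · exact absurd h h2
    · rintro ⟨a, b, ⟨h1, h2⟩, rfl, rfl⟩
      exact ⟨h1.symm, by omega⟩
  have hcP : #P = q := by
    have h1 : #P + #P' = #A := Finset.card_filter_add_card_filter_not _
    rw [hPP', card_map] at h1
    omega
  have himg : P.image (fun p => f p.1 - f p.2) = Icc 1 q := by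
    apply Finset.eq_of_subset_of_card_le
    · intro d hd'
      simp only [mem_image, hP, hA, mem_filter, mem_univ, true_and, Prod.exists] at hd'
      obtain ⟨u, v, ⟨_, h2⟩, rfl⟩ := hd'
      have := hfq u
      rw [mem_Icc]
      omega
    · rw [Nat.card_Icc, card_image_of_injOn, hcP]
      · omega
      · rintro ⟨u, v⟩ h1 ⟨x, y⟩ h2 h3
        simp only [hP, hA, coe_filter, mem_filter, mem_univ, true_and, Set.mem_ofPred_eq] at h1 h2
        simp only at h3
        have h4 := hd u v x y h1.1 h2.1 (by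
          rw [abs_of_pos (by omega), abs_of_pos (by omega)]
          omega)
        rw [Sym2.eq_iff] at h4
        rcases h4 with ⟨rfl, rfl⟩ | ⟨rfl, rfl⟩
        · rfl
        · omega
  have hinj : Set.InjOn (fun p : V × V => f p.1 - f p.2) P := by
    apply Finset.injOn_of_card_image_eq
    rw [himg, Nat.card_Icc, hcP]
    omega
  -- the exponential sum
  set t : ℝ := 3 * Real.pi / (2 * q + 1) with ht
  have hqR : (1 : ℝ) ≤ q := by exact_mod_cast hq
  have hpi := Real.pi_pos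
  have ht0 : 0 < t := by positivity
  have hsumP : ∑ p ∈ P, Real.cos (t * ((f p.1 : ℝ) - f p.2)) = ∑ d ∈ Icc 1 q, Real.cos (t * d) := by
    rw [← himg, sum_image hinj]
    apply sum_congr rfl
    rintro ⟨u, v⟩ h1
    simp only [hP, mem_filter] at h1
    simp only
    rw [Nat.cast_sub h1.2.le]
  have hsumP' : ∑ p ∈ P', Real.cos (t * ((f p.1 : ℝ) - f p.2)) = ∑ d ∈ Icc 1 q, Real.cos (t * d) := by
    rw [hPP', sum_map, ← hsumP]
    apply sum_congr rfl
    rintro ⟨u, v⟩ _
    simp only [Function.Embedding.coeFn_mk, Prod.swap_prod_mk]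
    rw [← Real.cos_neg]
    congr 1
    ring
  have hsumA : ∑ p ∈ A, Real.cos (t * ((f p.1 : ℝ) - f p.2)) =
      2 * ∑ d ∈ Icc 1 q, Real.cos (t * d) := by
    rw [← Finset.sum_filter_add_sum_filter_not A (fun p => f p.2 < f p.1), ← hP, ← hP', hsumP,
      hsumP']
    ring
  have hall : 0 ≤ ∑ p : V × V, Real.cos (t * ((f p.1 : ℝ) - f p.2)) := by
    have : ∑ p : V × V, Real.cos (t * ((f p.1 : ℝ) - f p.2)) =
        (∑ v, Real.cos (t * f v)) ^ 2 + (∑ v, Real.sin (t * f v)) ^ 2 := by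
      rw [sq, sq, Finset.sum_mul_sum, Finset.sum_mul_sum, Fintype.sum_prod_type,
        ← Finset.sum_add_distrib]
      refine sum_congr rfl fun u _ => ?_
      rw [← Finset.sum_add_distrib]
      refine sum_congr rfl fun v _ => ?_
      rw [mul_sub, Real.cos_sub]
    rw [this]
    positivity
  have hsplit : ∑ p : V × V, Real.cos (t * ((f p.1 : ℝ) - f p.2)) ≤
      2 * ∑ d ∈ Icc 1 q, Real.cos (t * d) + ((Fintype.card V : ℝ) ^ 2 - 2 * q) := by
    have h1 := Finset.sum_filter_add_sum_filter_not (univ : Finset (V × V))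
      (fun p => G.Adj p.1 p.2) (fun p => Real.cos (t * ((f p.1 : ℝ) - f p.2)))
    rw [← h1, ← hA, hsumA]
    have h2 : ∑ p ∈ univ.filter (fun p : V × V => ¬ G.Adj p.1 p.2),
        Real.cos (t * ((f p.1 : ℝ) - f p.2)) ≤ (#(univ.filter (fun p : V × V => ¬ G.Adj p.1 p.2)) : ℝ) := by
      have := Finset.sum_le_card_nsmul (univ.filter (fun p : V × V => ¬ G.Adj p.1 p.2))
        (fun p => Real.cos (t * ((f p.1 : ℝ) - f p.2))) 1 (fun p _ => Real.cos_le_one _)
      simpa using this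
    have h3 : (#(univ.filter (fun p : V × V => ¬ G.Adj p.1 p.2)) : ℝ) =
        (Fintype.card V : ℝ) ^ 2 - 2 * q := by
      have h4 : #A + #(univ.filter (fun p : V × V => ¬ G.Adj p.1 p.2)) = #(univ : Finset (V × V)) :=
        Finset.card_filter_add_card_filter_not _
      rw [Finset.card_univ, Fintype.card_prod, ← hcard] at h4
      have h5 : ((2 * q + #(univ.filter (fun p : V × V => ¬ G.Adj p.1 p.2)) : ℕ) : ℝ) =
        ((Fintype.card V * Fintype.card V : ℕ) : ℝ) := by rw [h4]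
      push_cast at h5
      linarith
    linarith
  have hmain : 0 ≤ 2 * ∑ d ∈ Icc 1 q, Real.cos (t * d) + ((Fintype.card V : ℝ) ^ 2 - 2 * q) :=
    hall.trans hsplit
  have hdir := dirichlet t q
  have hs1 : Real.sin ((q + 1 / 2) * t) = -1 := by
    have : ((q : ℝ) + 1 / 2) * t = Real.pi + Real.pi / 2 := by
      rw [ht]; field_simp; ring
    rw [this, Real.sin_add]
    simp
  rw [hs1] at hdir
  have hx0 : 0 < t / 2 := by positivity
  have hxpi : t / 2 < Real.pi := by
    rw [ht, div_div, div_lt_iff₀ (by positivity)]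
    nlinarith
  have hsin0 : 0 < Real.sin (t / 2) := Real.sin_pos_of_pos_of_lt_pi hx0 hxpi
  have hsinle : Real.sin (t / 2) ≤ t / 2 := Real.sin_le hx0.le
  set S := ∑ d ∈ Icc 1 q, Real.cos (t * d) with hS
  -- `sin (t/2) * (s - 1) ≥ 1`
  have h6 : 1 ≤ Real.sin (t / 2) * (((Fintype.card V : ℝ) ^ 2 - 2 * q) - 1) := by
    have := mul_nonneg hsin0.le hmain
    nlinarith
  have h7 : 0 < ((Fintype.card V : ℝ) ^ 2 - 2 * q) - 1 := by
    by_contra hcon
    push Not at hcon
    nlinarith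
  have h8 : 1 ≤ t / 2 * (((Fintype.card V : ℝ) ^ 2 - 2 * q) - 1) :=
    h6.trans (mul_le_mul_of_nonneg_right hsinle h7.le)
  rw [ht] at h8
  have h9 : 3 * Real.pi / (2 * q + 1) / 2 * (((Fintype.card V : ℝ) ^ 2 - 2 * q) - 1) =
      (3 * Real.pi * (((Fintype.card V : ℝ) ^ 2 - 2 * q) - 1)) / (2 * (2 * q + 1)) := by
    field_simp
  rw [h9, le_div_iff₀ (by positivity)] at h8
  linarith

lemma card_K {k : ℕ} (n : Fin k → ℕ) : Fintype.card (Σ i, Fin (n i)) = ∑ i, n i := by simp

lemma edges_K {k : ℕ} (n : Fin k → ℕ) :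
    2 * (K n).edgeSet.ncard + ∑ i, n i ^ 2 = (∑ i, n i) ^ 2 := by
  classical
  have h := (K n).two_mul_card_edgeFinset
  have h0 : (K n).edgeSet.ncard = #(K n).edgeFinset := by
    rw [← SimpleGraph.coe_edgeFinset, Set.ncard_coe_finset]
  rw [h0, h]
  have h4 := Finset.card_filter_add_card_filter_not (s := (univ : Finset ((Σ i, Fin (n i)) × (Σ i, Fin (n i)))))
    (fun p => (K n).Adj p.1 p.2)
  rw [Finset.card_univ, Fintype.card_prod, card_K] at h4
  have h5 : #(univ.filter (fun p : (Σ i, Fin (n i)) × (Σ i, Fin (n i)) => ¬ (K n).Adj p.1 p.2)) =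
      ∑ i, n i ^ 2 := by
    have h6 : (univ.filter (fun p : (Σ i, Fin (n i)) × (Σ i, Fin (n i)) => ¬ (K n).Adj p.1 p.2)) =
        (univ : Finset (Σ i, Fin (n i) × Fin (n i))).image
          (fun x => ((⟨x.1, x.2.1⟩ : Σ i, Fin (n i)), (⟨x.1, x.2.2⟩ : Σ i, Fin (n i)))) := by
      ext ⟨⟨i, a⟩, ⟨j, b⟩⟩
      simp only [K, mem_filter, mem_univ, true_and, not_not, mem_image, Prod.mk.injEq]
      constructor
      · intro h
        subst h
        exact ⟨⟨i, a, b⟩, rfl, rfl⟩
      · rintro ⟨⟨l, c, d⟩, h1, h2⟩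
        have h3 : l = i := congrArg Sigma.fst h1
        have h4 : l = j := congrArg Sigma.fst h2
        exact h3.symm.trans h4
    rw [h6, Finset.card_image_of_injective]
    · simp [sq]
    · rintro ⟨i, a, b⟩ ⟨j, c, d⟩ h
      simp only [Prod.mk.injEq, Sigma.mk.injEq] at h
      obtain ⟨⟨rfl, h1⟩, ⟨-, h2⟩⟩ := h
      simp only [heq_eq_eq] at h1 h2
      subst h1 h2
      rfl
  rw [h5] at h4
  rw [sq]
  convert h4 using 2

/-- **Result.** Let `k ≥ 2` and let all parts be nonempty. If `K_{n_1,…,n_k}` is graceful, then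
`(3π + 2) ∑ n_i² ≥ 2 (∑ n_i)² + 3π + 2`. In particular, with `N = ∑ n_i`, some part has more than
`2 N / (3π + 2)` vertices, and when all parts have the same size there are at most five parts. -/
theorem result (k : ℕ) (hk : 2 ≤ k) (n : Fin k → ℕ) (hn : ∀ i, 0 < n i)
    (hG : IsGraceful (K n)) :
    2 * ((∑ i, n i : ℕ) : ℝ) ^ 2 + (3 * Real.pi + 2) ≤ (3 * Real.pi + 2) * ((∑ i, n i ^ 2 : ℕ) : ℝ) ∧
      (∃ i, 2 * ((∑ i, n i : ℕ) : ℝ) < (3 * Real.pi + 2) * (n i : ℝ)) ∧
      ((∃ m, ∀ i, n i = m) → k ≤ 5) := by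
  have hpi := Real.pi_pos
  have he := edges_K n
  have hq : 0 < (K n).edgeSet.ncard := by
    rw [Set.ncard_pos (Set.toFinite _)]
    refine ⟨s(⟨⟨0, by omega⟩, ⟨0, hn _⟩⟩, ⟨⟨1, by omega⟩, ⟨0, hn _⟩⟩), ?_⟩
    rw [SimpleGraph.mem_edgeSet]
    simp [K]
  have hb := graceful_bound (K n) hG hq
  rw [card_K] at hb
  have he' : 2 * ((K n).edgeSet.ncard : ℝ) + ((∑ i, n i ^ 2 : ℕ) : ℝ) = ((∑ i, n i : ℕ) : ℝ) ^ 2 := by
    exact_mod_cast he
  set N : ℝ := ((∑ i, n i : ℕ) : ℝ) with hN
  set s : ℝ := ((∑ i, n i ^ 2 : ℕ) : ℝ) with hs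
  have h1 : 2 * N ^ 2 + (3 * Real.pi + 2) ≤ (3 * Real.pi + 2) * s := by
    have h2 : N ^ 2 - 2 * ((K n).edgeSet.ncard : ℝ) = s := by linarith
    rw [h2] at hb
    nlinarith
  refine ⟨h1, ?_, ?_⟩
  · by_contra hcon
    push Not at hcon
    have h3 : (3 * Real.pi + 2) * s ≤ 2 * N ^ 2 := by
      have h4 : (3 * Real.pi + 2) * s = ∑ i, ((3 * Real.pi + 2) * (n i : ℝ)) * (n i : ℝ) := by
        rw [hs]; push_cast
        rw [Finset.mul_sum]
        exact Finset.sum_congr rfl fun i _ => by ring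
      have h5 : 2 * N ^ 2 = ∑ i, (2 * N) * (n i : ℝ) := by
        rw [← Finset.mul_sum, hN]; push_cast; ring
      rw [h4, h5]
      exact Finset.sum_le_sum fun i _ => mul_le_mul_of_nonneg_right (hcon i) (by positivity)
    linarith
  · rintro ⟨m, hm⟩
    by_contra hcon
    push Not at hcon
    have hm0 : 0 < m := by rw [← hm ⟨0, by omega⟩]; exact hn _
    have hN' : N = k * m := by rw [hN]; simp [hm]
    have hs' : s = k * m ^ 2 := by rw [hs]; simp [hm]
    rw [hN', hs'] at h1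
    have hk6 : (6 : ℝ) ≤ k := by exact_mod_cast hcon
    have hmR : (1 : ℝ) ≤ m := by exact_mod_cast hm0
    have hpi' := Real.pi_lt_d2
    have h7 : (3 * Real.pi + 2) * (k * (m : ℝ) ^ 2) ≤ 2 * (k * (m : ℝ)) ^ 2 := by
      have h8 : (3 * Real.pi + 2) ≤ 2 * (k : ℝ) := by linarith
      have h9 : 0 ≤ (k : ℝ) * (m : ℝ) ^ 2 := by positivity
      nlinarith [mul_le_mul_of_nonneg_right h8 h9]
    linarith

end Pool.Agent.Results.MP_7fd98a_co.BalancedMultipartite
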